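import Pool.Agent.W163.P3.Stm2

set_option autoImplicit false
open Finset

namespace Pool.Agent.W45.P3.CLOSE

open Pool.Agent.W163.P3

lemma fin (hRC : S_RC0) {p e n U B W Th f F S : ℝ} (hp : 2 / 5 ≤ p) (hp1 : p ≤ 1) (he : 0 ≤ e)
    (he' : e ≤ 1 / 10 ^ 7) (hn : 0 < n) (hU : 0 ≤ U) (hB : 0 ≤ B) (hf : 0 ≤ f) (hF : 0 ≤ F)
    (hS : 0 ≤ S) (hTh : Th = U + B) (hW : W + Th = n) (hW0 : 0 ≤ W)
    (hlin : 10 * U * n + 4920 * B * n + 4800 * f + 24480 * F + 14400 * S ≤ 7 * n ^ 2)
    (hcub : 3 * (p - e) * W * n ^ 2 ≤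
      3 * p * W ^ 3 + 12 * W * F + 6 * B * (p + e) * n ^ 2 + 2 * W * Th ^ 2) :
    2 * f + 2 * Th * n + 6 * S ≤ 292 / 100000 * n ^ 2 := by
  have h := hRC p e (U / n) (B / n) (f / n ^ 2) (F / n ^ 2) (S / n ^ 2) (Th / n) (W / n) hp hp1 he
    he' (by positivity) (by positivity) (by positivity) (by positivity) (by positivity)
    (by rw [hTh]; ring) (by field_simp; linarith) (by positivity) ?_ ?_
  · have e1 : 2 * (f / n ^ 2) + 2 * (Th / n) + 6 * (S / n ^ 2) =
        (2 * f + 2 * Th * n + 6 * S) / n ^ 2 := by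
      field_simp
    rw [e1, div_le_iff₀ (by positivity)] at h
    exact h
  · have e1 : 10 * (U / n) + 4920 * (B / n) + 4800 * (f / n ^ 2) + 24480 * (F / n ^ 2) +
        14400 * (S / n ^ 2) =
        (10 * U * n + 4920 * B * n + 4800 * f + 24480 * F + 14400 * S) / n ^ 2 := by
      field_simp
    rw [e1, div_le_iff₀ (by positivity)]
    exact hlin
  · have e1 : 3 * (p - e) * (W / n) = (3 * (p - e) * W * n ^ 2) / n ^ 3 := by
      field_simp
    have e2 : 3 * p * (W / n) ^ 3 + 12 * (W / n) * (F / n ^ 2) + 6 * (B / n) * (p + e) +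
        2 * (W / n) * (Th / n) ^ 2 =
        (3 * p * W ^ 3 + 12 * W * F + 6 * B * (p + e) * n ^ 2 + 2 * W * Th ^ 2) / n ^ 3 := by
      field_simp
    rw [e1, e2]
    gcongr

lemma sq4 (a b c d : ℝ) : (a + b + c + d) ^ 2 ≤ 4 * (a ^ 2 + b ^ 2 + c ^ 2 + d ^ 2) := by
  nlinarith [sq_nonneg (a - b), sq_nonneg (a - c), sq_nonneg (a - d), sq_nonneg (b - c),
    sq_nonneg (b - d), sq_nonneg (c - d)]

theorem t_CLOSE : S_CLOSE := by
  intro hC0 hRC V _ _ r p e q hE hp hp1 he he' hn hlin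
  have hn0 : (0 : ℝ) < (Fintype.card V : ℝ) := by exact_mod_cast hn
  have c1 : (univ.filter (fun w : V => 4 ≤ q w)).card =
      (univ.filter (fun w : V => 4 ≤ q w ∧ q w < 7)).card +
        (univ.filter (fun w : V => 7 ≤ q w)).card := by
    rw [← card_union_of_disjoint]
    · congr 1
      ext w
      simp only [mem_filter, mem_univ, true_and, mem_union]
      omega
    · rw [disjoint_left]
      intro w h1 h2
      simp only [mem_filter, mem_univ, true_and] at h1 h2
      omega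
  have c2 : (univ.filter (fun w : V => q w < 4)).card +
      (univ.filter (fun w : V => 4 ≤ q w)).card = Fintype.card V := by
    rw [← card_union_of_disjoint, ← card_univ]
    · congr 1
      ext w
      simp only [mem_filter, mem_univ, true_and, mem_union, iff_true]
      exact lt_or_ge (q w) 4
    · rw [disjoint_left]
      intro w h1 h2
      simp only [mem_filter, mem_univ, true_and] at h1 h2
      omega
  have c3 : (univ.filter (fun w : V => q w < 4)).card = ∑ k ∈ range 4, (pt q k).card := by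
    rw [card_eq_sum_card_fiberwise (f := q) (t := range 4)]
    · refine sum_congr rfl fun k hk => ?_
      congr 1
      ext w
      simp only [mem_filter, mem_univ, true_and, pt, mem_range] at hk ⊢
      constructor
      · exact fun h => h.2
      · intro h
        exact ⟨by omega, h⟩
    · intro w hw
      simpa using hw
  have hcub := hC0 V r hE.ori q
  set X := univ.filter (fun w : V => q w < 4) with hX
  set Y := univ.filter (fun w : V => 7 ≤ q w) with hY
  have hcub' : 3 * ∑ w ∈ X, (tph r (r w) : ℝ) ≤ 3 * (TS r X : ℝ) + 12 * (X.card : ℝ) * (Fyu r q : ℝ)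
      + 6 * ∑ w ∈ Y, (tph r (r w) : ℝ)
      + 2 * (X.card : ℝ) * ((univ.filter (fun w : V => 4 ≤ q w)).card : ℝ) ^ 2 := by
    exact_mod_cast hcub
  have l1 : (X.card : ℝ) * ((p - e) * (Fintype.card V : ℝ) ^ 2) ≤ ∑ w ∈ X, (tph r (r w) : ℝ) := by
    rw [← nsmul_eq_mul]
    exact card_nsmul_le_sum _ _ _ fun w _ => hE.low w
  have l2 : ∑ w ∈ Y, (tph r (r w) : ℝ) ≤ (Y.card : ℝ) * ((p + e) * (Fintype.card V : ℝ) ^ 2) := by
    rw [← nsmul_eq_mul]
    refine sum_le_card_nsmul _ _ _ fun w _ => hE.upp (r w) fun v => ?_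
    rcases hE.ori w v with h | h | h <;> omega
  have l3 := hE.cap X
  have hS : 0 ≤ 4 * (∑ k ∈ range 4, ((pt q k).card : ℝ) ^ 2) - (X.card : ℝ) ^ 2 := by
    rw [c3]
    push_cast
    simp only [sum_range_succ, sum_range_zero, zero_add]
    linarith [sq4 ((pt q 0).card : ℝ) ((pt q 1).card : ℝ) ((pt q 2).card : ℝ) ((pt q 3).card : ℝ)]
  have c1' : ((univ.filter (fun w : V => 4 ≤ q w)).card : ℝ) =
      ((univ.filter (fun w : V => 4 ≤ q w ∧ q w < 7)).card : ℝ) + (Y.card : ℝ) := by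
    exact_mod_cast c1
  have c2' : (X.card : ℝ) + ((univ.filter (fun w : V => 4 ≤ q w)).card : ℝ) =
      (Fintype.card V : ℝ) := by
    exact_mod_cast c2
  exact fin hRC (p := p) (e := e) (F := (Fyu r q : ℝ))
    (B := (Y.card : ℝ)) (W := (X.card : ℝ))
    (U := ((univ.filter (fun w : V => 4 ≤ q w ∧ q w < 7)).card : ℝ)) hp hp1 he he' hn0
    (by positivity) (by positivity) (by positivity) (by positivity) hS c1' c2' (by positivity) hlin
    (by linarith)

end Pool.Agent.W45.P3.CLOSE
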