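import Pool.Agent.W163.P3.Real

set_option autoImplicit false

namespace Pool.Agent.W45.P3.RA1

open Pool.Agent.W163.P3

/-- lower bound for one coordinate -/
lemma ylow {a b c d th f : ℝ} (hf : 0 ≤ f) (hth : 0 ≤ th)
    (hsum : a + b + c + d = 1 - th)
    (hC : 2 * f + 2 * th + 6 * (4 * (a ^ 2 + b ^ 2 + c ^ 2 + d ^ 2) - (1 - th) ^ 2) ≤ 292 / 100000) :
    240 / 1000 ≤ a := by
  have h1 : 4 * (a ^ 2 + b ^ 2 + c ^ 2 + d ^ 2) - (1 - th) ^ 2 ≤ 292 / 600000 := by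
    linarith
  have h2 : (16 / 3) * (a - (1 - th) / 4) ^ 2 ≤
      4 * (a ^ 2 + b ^ 2 + c ^ 2 + d ^ 2) - (1 - th) ^ 2 := by
    have e1 : 1 - th = a + b + c + d := hsum.symm
    rw [e1]
    nlinarith [sq_nonneg (b - c), sq_nonneg (c - d), sq_nonneg (b - d)]
  have hth' : th ≤ 146 / 100000 := by nlinarith [sq_nonneg (a - (1 - th) / 4)]
  by_contra hcon
  push Not at hcon
  have h3 : 96 / 10000 < (1 - th) / 4 - a := by linarith
  nlinarith

lemma key {z : ℝ} (h1 : 0 ≤ z) (h2 : z ≤ 41 / 100) : z ^ 2 ≤ 41 / 100 * z := by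
  nlinarith

lemma sq1 {th : ℝ} (h1 : 0 ≤ th) (h2 : th ≤ 1) : (1 - th) ^ 2 ≤ 1 := by
  nlinarith

lemma ss {a b c d y : ℝ} (h : a + b + c + d = y) : y ^ 2 ≤ 4 * (a ^ 2 + b ^ 2 + c ^ 2 + d ^ 2) := by
  subst h
  nlinarith [sq_nonneg (a - b), sq_nonneg (a - c), sq_nonneg (a - d), sq_nonneg (b - c),
    sq_nonneg (b - d), sq_nonneg (c - d)]

theorem t_RA1 : S_RA1 := by
  intro y0 y1 y2 y3 p1 p2 p3 d12 d13 d21 d23 d31 d32 f th e h
  by_contra hcon
  push Not at hcon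
  obtain ⟨hy0, hy1, hy2, hy3, hp1, hp2, hp3, h12, h13, h21, h23, h31, h32, hf, hth, he, he', hsum,
    hp, hd1, hd2, hd3, hC, hm1, hm2, hm3, hS, -, -⟩ := h
  have l0 := ylow hf hth hsum hC
  have l1 : 240 / 1000 ≤ y1 := ylow (b := y0) (c := y2) (d := y3) hf hth (by linarith) (by linarith)
  have l2 : 240 / 1000 ≤ y2 := ylow (b := y0) (c := y1) (d := y3) hf hth (by linarith) (by linarith)
  have l3 : 240 / 1000 ≤ y3 := ylow (b := y0) (c := y1) (d := y2) hf hth (by linarith) (by linarith)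
  have k0 := key (z := y1 + y2 + y3 - (d12 + d13 + d21 + d23 + d31 + d32)) (by linarith) (by linarith)
  have k1 := key (z := p1 + d21 + d31) (by linarith) (by linarith)
  have k2 := key (z := p2 + d12 + d32) (by linarith) (by linarith)
  have k3 := key (z := p3 + d13 + d23) (by linarith) (by linarith)
  have hy : (1 - th) ^ 2 ≤ 1 := sq1 hth (by linarith)
  have hss := ss hsum
  linarith

end Pool.Agent.W45.P3.RA1
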